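import Pool.Agent.R693.SU.Stm

set_option autoImplicit false

/-!
# SU-QB (helper507): rational traces give a rational quaternion basis
-/

open Matrix

namespace Pool.Agent.R693.SU

universe u

namespace QB507

abbrev MM : Type := Matrix (Fin 2) (Fin 2) ℂ

theorem anti {X Y : MM} (hX : X.trace = 0) (hY : Y.trace = 0) :
    X * Y + Y * X = (X * Y).trace • (1 : MM) := by
  rw [trace_fin_two] at hX hY
  have e : (X * Y).trace = X 0 0 * Y 0 0 + X 0 1 * Y 1 0 + (X 1 0 * Y 0 1 + X 1 1 * Y 1 1) := by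
    rw [trace_fin_two, Matrix.mul_apply, Matrix.mul_apply, Fin.sum_univ_two, Fin.sum_univ_two]
  rw [e]
  ext i j
  rw [Matrix.add_apply, Matrix.mul_apply, Matrix.mul_apply, Fin.sum_univ_two, Fin.sum_univ_two,
    Matrix.smul_apply, smul_eq_mul]
  fin_cases i <;> fin_cases j
  · simp only [Fin.zero_eta, Fin.isValue, Matrix.one_apply_eq]
    linear_combination Y 0 0 * hX - X 1 1 * hY
  · simp only [Fin.zero_eta, Fin.mk_one, Fin.isValue, ne_eq, zero_ne_one, not_false_eq_true,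
      Matrix.one_apply_ne]
    linear_combination Y 0 1 * hX + X 0 1 * hY
  · simp only [Fin.zero_eta, Fin.mk_one, Fin.isValue, ne_eq, one_ne_zero, not_false_eq_true,
      Matrix.one_apply_ne]
    linear_combination Y 1 0 * hX + X 1 0 * hY
  · simp only [Fin.mk_one, Fin.isValue, Matrix.one_apply_eq]
    linear_combination -(Y 0 0 * hX) + X 1 1 * hY

/-- the determinant of `u` and `Z u` -/
noncomputable def D (u : Fin 2 → ℂ) (Z : MM) : ℂ := u 0 * (Z *ᵥ u) 1 - u 1 * (Z *ᵥ u) 0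

theorem D_add (u : Fin 2 → ℂ) (Y Z : MM) : D u (Y + Z) = D u Y + D u Z := by
  unfold D
  rw [add_mulVec, Pi.add_apply, Pi.add_apply]
  ring

theorem D_smul (u : Fin 2 → ℂ) (c : ℂ) (Z : MM) : D u (c • Z) = c * D u Z := by
  unfold D
  rw [smul_mulVec, Pi.smul_apply, Pi.smul_apply, smul_eq_mul, smul_eq_mul]
  ring

theorem D_one (u : Fin 2 → ℂ) : D u 1 = 0 := by
  unfold D
  rw [one_mulVec]
  ring

theorem eig {N Y : MM} {u : Fin 2 → ℂ} (hN : N ≠ 0) (h0 : N *ᵥ u = 0)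
    (h : Y * N + N * Y = 0) : D u Y = 0 := by
  have h1 : N *ᵥ (Y *ᵥ u) = 0 := by
    have h2 : (Y * N + N * Y) *ᵥ u = 0 := by rw [h, zero_mulVec]
    rw [add_mulVec, ← mulVec_mulVec, ← mulVec_mulVec, h0, mulVec_zero, zero_add] at h2
    exact h2
  unfold D
  generalize Y *ᵥ u = w at h1 ⊢
  by_contra hne
  apply hN
  have a0 : ∀ i, N i 0 * u 0 + N i 1 * u 1 = 0 := by
    intro i
    have := congrFun h0 i
    simpa [mulVec, dotProduct, Fin.sum_univ_two] using this
  have a1 : ∀ i, N i 0 * w 0 + N i 1 * w 1 = 0 := by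
    intro i
    have := congrFun h1 i
    simpa [mulVec, dotProduct, Fin.sum_univ_two] using this
  have b0 : ∀ i, N i 0 = 0 := by
    intro i
    have : N i 0 * (u 0 * w 1 - u 1 * w 0) = 0 := by
      linear_combination w 1 * a0 i - u 1 * a1 i
    exact (mul_eq_zero.1 this).resolve_right hne
  have b1 : ∀ i, N i 1 = 0 := by
    intro i
    have : N i 1 * (u 0 * w 1 - u 1 * w 0) = 0 := by
      linear_combination u 0 * a1 i - w 0 * a0 i
    exact (mul_eq_zero.1 this).resolve_right hne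
  ext i j
  fin_cases j
  · exact b0 i
  · exact b1 i

theorem noeig {G : Type u} [Group G] {ρ : G →* GL (Fin 2) ℂ} (h : Irr ρ) {u : Fin 2 → ℂ}
    (hu : u ≠ 0) (hD : ∀ g, D u (ρ g : MM) = 0) : False := by
  have key : ∀ g, ∃ k : ℂ, (ρ g : MM) *ᵥ u = k • u := by
    intro g
    have h1 := hD g
    unfold D at h1
    by_cases h0 : u 0 = 0
    · have h2 : u 1 ≠ 0 := by
        intro h3
        apply hu
        ext i
        fin_cases i
        · exact h0
        · exact h3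
      refine ⟨((ρ g : MM) *ᵥ u) 1 / u 1, ?_⟩
      ext i
      fin_cases i
      · simp only [Fin.zero_eta, Fin.isValue, Pi.smul_apply, smul_eq_mul, h0, mul_zero]
        rw [h0, zero_mul, zero_sub, neg_eq_zero] at h1
        exact (mul_eq_zero.1 h1).resolve_left h2
      · simp only [Fin.mk_one, Fin.isValue, Pi.smul_apply, smul_eq_mul]
        rw [div_mul_cancel₀ _ h2]
    · refine ⟨((ρ g : MM) *ᵥ u) 0 / u 0, ?_⟩
      ext i
      fin_cases i
      · simp only [Fin.zero_eta, Fin.isValue, Pi.smul_apply, smul_eq_mul]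
        rw [div_mul_cancel₀ _ h0]
      · simp only [Fin.mk_one, Fin.isValue, Pi.smul_apply, smul_eq_mul]
        field_simp
        linear_combination h1
  rcases h.2 (Submodule.span ℂ {u}) (by
    intro g w hw
    obtain ⟨c, rfl⟩ := Submodule.mem_span_singleton.1 hw
    obtain ⟨k, hk⟩ := key g
    rw [mulVec_smul, hk, smul_smul]
    exact Submodule.smul_mem _ _ (Submodule.mem_span_singleton_self u)) with hW | hW
  · exact hu (Submodule.span_singleton_eq_bot.1 hW)
  · have m0 : (![1, 0] : Fin 2 → ℂ) ∈ Submodule.span ℂ {u} := by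
      rw [hW]
      exact Submodule.mem_top
    have m1 : (![0, 1] : Fin 2 → ℂ) ∈ Submodule.span ℂ {u} := by
      rw [hW]
      exact Submodule.mem_top
    obtain ⟨c, hc⟩ := Submodule.mem_span_singleton.1 m0
    obtain ⟨d, hd⟩ := Submodule.mem_span_singleton.1 m1
    have c0 : c * u 0 = 1 := congrFun hc 0
    have c1 : c * u 1 = 0 := congrFun hc 1
    have d1 : d * u 1 = 1 := congrFun hd 1
    have : u 1 = 0 := by linear_combination u 0 * c1 - u 1 * c0
    rw [this, mul_zero] at d1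
    exact zero_ne_one d1

/-- the rational algebra spanned by the image -/
noncomputable def Al {G : Type u} [Group G] (ρ : G →* GL (Fin 2) ℂ) : Subalgebra ℚ MM :=
  Algebra.adjoin ℚ (Set.range fun g => (ρ g : MM))

theorem tr_rat {G : Type u} [Group G] {ρ : G →* GL (Fin 2) ℂ}
    (ht : ∀ g, ∃ q : ℚ, (ρ g : MM).trace = (q : ℂ)) {X : MM} (hX : X ∈ Al ρ) :
    ∃ q : ℚ, X.trace = (q : ℂ) := by
  have h1 : X ∈ Submodule.span ℚ (Set.range fun g => (ρ g : MM)) := by
    have h2 : X ∈ Subalgebra.toSubmodule (Al ρ) := hX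
    unfold Al at h2
    rw [Algebra.adjoin_eq_span] at h2
    have h3 : (Submonoid.closure (Set.range fun g => (ρ g : MM)) : Set MM) =
        Set.range fun g => (ρ g : MM) := by
      have h4 : (Set.range fun g => (ρ g : MM)) =
          ((MonoidHom.mrange ((Units.coeHom MM).comp ρ) : Submonoid MM) : Set MM) := by
        rw [MonoidHom.coe_mrange]
        rfl
      rw [h4, Submonoid.closure_eq]
    rw [h3] at h2
    exact h2
  clear hX
  induction h1 using Submodule.span_induction with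
  | mem x hx =>
    obtain ⟨g, rfl⟩ := hx
    exact ht g
  | zero => exact ⟨0, by simp⟩
  | add x y _ _ hx hy =>
    obtain ⟨q, hq⟩ := hx
    obtain ⟨r, hr⟩ := hy
    exact ⟨q + r, by rw [trace_add, hq, hr]; push_cast; rfl⟩
  | smul a x _ hx =>
    obtain ⟨q, hq⟩ := hx
    exact ⟨a * q, by rw [trace_smul, hq, Rat.smul_def]; push_cast; rfl⟩

theorem mem_gen {G : Type u} [Group G] (ρ : G →* GL (Fin 2) ℂ) (g : G) : (ρ g : MM) ∈ Al ρ :=
  Algebra.subset_adjoin ⟨g, rfl⟩

theorem smul_mem' {G : Type u} [Group G] {ρ : G →* GL (Fin 2) ℂ} {X : MM} (hX : X ∈ Al ρ)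
    (q : ℚ) : (q : ℂ) • X ∈ Al ρ := by
  have h : (q : ℂ) • X = q • X := by
    ext i j
    rw [Matrix.smul_apply, Matrix.smul_apply, Rat.smul_def, smul_eq_mul]
  rw [h]
  exact Subalgebra.smul_mem _ hX q

/-- traceless part -/
theorem split {G : Type u} [Group G] {ρ : G →* GL (Fin 2) ℂ}
    (ht : ∀ g, ∃ q : ℚ, (ρ g : MM).trace = (q : ℂ)) {Z : MM} (hZ : Z ∈ Al ρ) :
    ∃ (q : ℚ) (Y : MM), Y ∈ Al ρ ∧ Y.trace = 0 ∧ Z = (q : ℂ) • (1 : MM) + Y := by
  obtain ⟨t, h⟩ := tr_rat ht hZ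
  refine ⟨t / 2, Z - ((t / 2 : ℚ) : ℂ) • (1 : MM),
    Subalgebra.sub_mem _ hZ (smul_mem' (Subalgebra.one_mem _) _), ?_, by abel⟩
  rw [trace_sub, trace_smul, h, trace_one, Fintype.card_fin, smul_eq_mul]
  push_cast
  ring

theorem exists_ne {N : MM} (hN : N ≠ 0) : ∃ w : Fin 2 → ℂ, N *ᵥ w ≠ 0 := by
  by_contra h
  push Not at h
  apply hN
  ext i j
  have h1 := congrFun (h (Pi.single j 1)) i
  rw [mulVec_single_one] at h1
  exact h1

/-- Step 1 -/
theorem step1 {G : Type u} [Group G] {ρ : G →* GL (Fin 2) ℂ} (hI : Irr ρ)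
    (ht : ∀ g, ∃ q : ℚ, (ρ g : MM).trace = (q : ℂ)) :
    ∃ x : MM, x ∈ Al ρ ∧ x.trace = 0 ∧ x * x ≠ 0 := by
  by_contra H
  push Not at H
  by_cases h0 : ∀ Y ∈ Al ρ, Y.trace = 0 → Y = 0
  · refine noeig hI (u := fun _ => 1) (fun e => one_ne_zero (congrFun e 0)) fun g => ?_
    obtain ⟨q, Y, hY, hYt, h⟩ := split ht (mem_gen ρ g)
    rw [h, h0 Y hY hYt, add_zero, D_smul, D_one, mul_zero]
  · push Not at h0
    obtain ⟨N, hN, hNt, hN0⟩ := h0
    obtain ⟨w, hw⟩ := exists_ne hN0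
    refine noeig hI hw fun g => ?_
    obtain ⟨q, Y, hY, hYt, h⟩ := split ht (mem_gen ρ g)
    rw [h, D_add, D_smul, D_one, mul_zero, zero_add]
    apply eig hN0
    · rw [mulVec_mulVec, H N hN hNt, zero_mulVec]
    · have h1 := H (Y + N) (Subalgebra.add_mem _ hY hN) (by rw [trace_add, hYt, hNt, add_zero])
      rw [add_mul, mul_add, mul_add, H Y hY hYt, H N hN hNt, zero_add, add_zero] at h1
      exact h1

theorem sq_eq {X : MM} (hX : X.trace = 0) : X * X = ((X * X).trace / 2) • (1 : MM) := by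
  have h := anti hX hX
  have h2 : (2 : ℂ) • (X * X) = (X * X).trace • (1 : MM) := by
    rw [two_smul]
    exact h
  rw [div_eq_inv_mul, mul_smul, ← h2, smul_smul]
  norm_num

/-- projection -/
theorem proj {G : Type u} [Group G] {ρ : G →* GL (Fin 2) ℂ}
    (ht : ∀ g, ∃ q : ℚ, (ρ g : MM).trace = (q : ℂ)) {x Z : MM} {a : ℚ} (hx : x ∈ Al ρ)
    (hxt : x.trace = 0) (ha : a ≠ 0) (hxx : x * x = (a : ℂ) • (1 : MM)) (hZ : Z ∈ Al ρ)
    (hZt : Z.trace = 0) : ∃ (c : ℚ) (Y : MM), Y ∈ Al ρ ∧ Y.trace = 0 ∧ x * Y + Y * x = 0 ∧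
      Z = (c : ℂ) • x + Y ∧ (∀ y : MM, y * x + x * y = 0 → y * Z + Z * y = 0 →
        y * Y + Y * y = 0) := by
  obtain ⟨t, h⟩ := tr_rat ht (Subalgebra.mul_mem _ hx hZ)
  have h5 := anti hxt hZt
  rw [h] at h5
  have ha' : (a : ℂ) ≠ 0 := by exact_mod_cast ha
  refine ⟨t / (2 * a), Z - ((t / (2 * a) : ℚ) : ℂ) • x,
    Subalgebra.sub_mem _ hZ (smul_mem' hx _), ?_, ?_, by abel, ?_⟩
  · rw [trace_sub, trace_smul, hZt, hxt, smul_zero, sub_zero]
  · rw [mul_sub, sub_mul, mul_smul_comm, smul_mul_assoc, hxx]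
    have e1 : x * Z - ((t / (2 * a) : ℚ) : ℂ) • (a : ℂ) • (1 : MM) +
        (Z * x - ((t / (2 * a) : ℚ) : ℂ) • (a : ℂ) • (1 : MM)) =
        (x * Z + Z * x) - (2 * ((t / (2 * a) : ℚ) : ℂ) * a) • (1 : MM) := by
      module
    rw [e1, h5, ← sub_smul]
    have e2 : (t : ℂ) - 2 * ((t / (2 * a) : ℚ) : ℂ) * a = 0 := by
      push_cast
      field_simp
      ring
    rw [e2, zero_smul]
  · intro y h1 h2
    rw [mul_sub, sub_mul, mul_smul_comm, smul_mul_assoc]
    have e1 : y * Z - ((t / (2 * a) : ℚ) : ℂ) • (y * x) + (Z * y - ((t / (2 * a) : ℚ) : ℂ) • (x * y)) =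
        (y * Z + Z * y) - ((t / (2 * a) : ℚ) : ℂ) • (y * x + x * y) := by
      module
    rw [e1, h1, h2, smul_zero, sub_zero]

/-- Step 2 -/
theorem step2 {G : Type u} [Group G] {ρ : G →* GL (Fin 2) ℂ} (hI : Irr ρ)
    (ht : ∀ g, ∃ q : ℚ, (ρ g : MM).trace = (q : ℂ)) {x : MM} {a : ℚ} (hx : x ∈ Al ρ)
    (hxt : x.trace = 0) (ha : a ≠ 0) (hxx : x * x = (a : ℂ) • (1 : MM)) :
    ∃ y : MM, y ∈ Al ρ ∧ y.trace = 0 ∧ x * y + y * x = 0 ∧ y * y ≠ 0 := by
  have ha' : (a : ℂ) ≠ 0 := by exact_mod_cast ha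
  by_contra H
  push Not at H
  by_cases h0 : ∀ Y ∈ Al ρ, Y.trace = 0 → x * Y + Y * x = 0 → Y = 0
  · obtain ⟨l, hl⟩ := IsAlgClosed.exists_pow_nat_eq (a : ℂ) (n := 2) (by norm_num)
    have hl0 : l ≠ 0 := by
      rintro rfl
      apply ha'
      rw [← hl]
      norm_num
    have hne : x + l • (1 : MM) ≠ 0 := by
      intro e
      have := congrArg Matrix.trace e
      rw [trace_add, trace_smul, trace_one, hxt, trace_zero, Fintype.card_fin, smul_eq_mul,
        zero_add] at this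
      rcases mul_eq_zero.1 this with h | h
      · exact hl0 h
      · norm_num at h
    obtain ⟨w, hw⟩ := exists_ne hne
    have hDx : D ((x + l • (1 : MM)) *ᵥ w) x = 0 := by
      have e1 : x *ᵥ ((x + l • (1 : MM)) *ᵥ w) = l • ((x + l • (1 : MM)) *ᵥ w) := by
        rw [mulVec_mulVec, ← smul_mulVec, mul_add, hxx, mul_smul_comm, mul_one, smul_add,
          smul_smul, ← pow_two, hl, add_comm]
      unfold D
      rw [e1, Pi.smul_apply, Pi.smul_apply, smul_eq_mul, smul_eq_mul]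
      ring
    refine noeig hI hw fun g => ?_
    obtain ⟨q, Y, hY, hYt, h⟩ := split ht (mem_gen ρ g)
    obtain ⟨c, Y', hY', hYt', hxY, h', -⟩ := proj ht hx hxt ha hxx hY hYt
    rw [h, D_add, D_smul, D_one, mul_zero, zero_add, h', h0 Y' hY' hYt' hxY, add_zero, D_smul,
      hDx, mul_zero]
  · push Not at h0
    obtain ⟨N, hN, hNt, hxN, hN0⟩ := h0
    obtain ⟨w, hw⟩ := exists_ne hN0
    refine noeig hI hw fun g => ?_
    have hNN : N *ᵥ (N *ᵥ w) = 0 := by rw [mulVec_mulVec, H N hN hNt hxN, zero_mulVec]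
    obtain ⟨q, Y, hY, hYt, h⟩ := split ht (mem_gen ρ g)
    obtain ⟨c, Y', hY', hYt', hxY, h', -⟩ := proj ht hx hxt ha hxx hY hYt
    rw [h, D_add, D_smul, D_one, mul_zero, zero_add, h', D_add, D_smul, eig hN0 hNN hxN, mul_zero,
      zero_add]
    apply eig hN0 hNN
    have h1 := H (Y' + N) (Subalgebra.add_mem _ hY' hN) (by rw [trace_add, hYt', hNt, add_zero])
      (by
        rw [mul_add, add_mul, add_add_add_comm, hxY, hxN, add_zero])
    rw [add_mul, mul_add, mul_add, H Y' hY' hYt' hxY, H N hN hNt hxN, zero_add, add_zero] at h1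
    exact h1

end QB507

open QB507 in
theorem tQB : S_QB.{u} := by
  intro G _ ρ hI hdet ht
  obtain ⟨x, hx, hxt, hx0⟩ := step1 hI ht
  have rat : ∀ {X : MM}, X ∈ Al ρ → X.trace = 0 → X * X ≠ 0 → ∃ a : ℚ, a ≠ 0 ∧
      X * X = (a : ℂ) • (1 : MM) := by
    intro X hX hXt hX0
    obtain ⟨t, h⟩ := tr_rat ht (Subalgebra.mul_mem _ hX hX)
    have h2 := sq_eq hXt
    rw [h] at h2
    have h3 : ((t : ℂ) / 2) = ((t / 2 : ℚ) : ℂ) := by push_cast; rfl
    rw [h3] at h2
    refine ⟨t / 2, ?_, h2⟩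
    intro e
    apply hX0
    rw [h2, e]
    simp
  obtain ⟨a, ha, hxx⟩ := rat hx hxt hx0
  obtain ⟨y, hy, hyt, hxy, hy0⟩ := step2 hI ht hx hxt ha hxx
  obtain ⟨b, hb, hyy⟩ := rat hy hyt hy0
  have ha' : (a : ℂ) ≠ 0 := by exact_mod_cast ha
  have hb' : (b : ℂ) ≠ 0 := by exact_mod_cast hb
  have hxy' : x * y = -(y * x) := eq_neg_of_add_eq_zero_left hxy
  have hyx : y * x = -(x * y) := by rw [hxy', neg_neg]
  refine ⟨a, b, x, y, ⟨ha, hb, hxx, hyy, hxy'⟩, fun g => ?_⟩
  obtain ⟨q, Z, hZ, hZt, h⟩ := split ht (mem_gen ρ g)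
  obtain ⟨c, Y, hY, hYt, hxY, h', -⟩ := proj ht hx hxt ha hxx hZ hZt
  obtain ⟨d, W, hW, hWt, hyW, h'', hcomm⟩ := proj ht hy hyt hb hyy hY hYt
  have hxW : x * W + W * x = 0 := hcomm x hxy hxY
  -- C commutes with x and y
  have exy2 : (x * y) * (x * y) = (-(a * b : ℂ)) • (1 : MM) := by
    calc (x * y) * (x * y) = x * (y * x) * y := by noncomm_ring
      _ = -((x * x) * (y * y)) := by rw [hyx]; noncomm_ring
      _ = (-(a * b : ℂ)) • (1 : MM) := by
        rw [hxx, hyy, smul_mul_smul_comm, one_mul, neg_smul]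
  have hWx : W * x = -(x * W) := by
    rw [eq_neg_iff_add_eq_zero, add_comm]
    exact hxW
  have hWy : W * y = -(y * W) := by
    rw [eq_neg_iff_add_eq_zero, add_comm]
    exact hyW
  set C : MM := W * (x * y) with hC
  have hCx : C * x = x * C := by
    calc C * x = W * x * (y * x) := by rw [hC]; noncomm_ring
      _ = x * W * (x * y) := by rw [hWx, hyx]; noncomm_ring
      _ = x * C := by rw [hC]; noncomm_ring
  have hCy : C * y = y * C := by
    calc C * y = (W * (x * y)) * y := rfl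
      _ = W * (-(y * x)) * y := by rw [hxy']
      _ = -((W * y) * (x * y)) := by noncomm_ring
      _ = y * W * (x * y) := by rw [hWy]; noncomm_ring
      _ = y * C := by rw [hC]; noncomm_ring
  have hCm : C ∈ Al ρ := Subalgebra.mul_mem _ hW (Subalgebra.mul_mem _ hx hy)
  obtain ⟨k, C0, hC0, hC0t, hCe⟩ := split ht hCm
  have c0x : C0 * x = x * C0 := by
    have e : C0 = C - (k : ℂ) • (1 : MM) := by rw [hCe]; abel
    rw [e, sub_mul, mul_sub, hCx, smul_mul_assoc, mul_smul_comm, one_mul, mul_one]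
  have c0y : C0 * y = y * C0 := by
    have e : C0 = C - (k : ℂ) • (1 : MM) := by rw [hCe]; abel
    rw [e, sub_mul, mul_sub, hCy, smul_mul_assoc, mul_smul_comm, one_mul, mul_one]
  obtain ⟨m, C1, hC1, hC1t, hxC1, hC1e, -⟩ := proj ht hx hxt ha hxx hC0 hC0t
  have c1x : C1 * x = x * C1 := by
    have e : C1 = C0 - (m : ℂ) • x := by rw [hC1e]; abel
    rw [e, sub_mul, mul_sub, c0x, smul_mul_assoc, mul_smul_comm]
  have c1z : C1 = 0 := by
    have e1 : (2 : ℂ) • (x * C1) = 0 := by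
      rw [two_smul]
      rw [c1x] at hxC1
      exact hxC1
    have e2 : x * C1 = 0 := (smul_eq_zero.1 e1).resolve_left (by norm_num)
    have e3 : (a : ℂ) • C1 = 0 := by
      rw [← one_mul C1, ← smul_mul_assoc, ← hxx, mul_assoc, e2, mul_zero]
    exact (smul_eq_zero.1 e3).resolve_left ha'
  rw [c1z, add_zero] at hC1e
  have c0z : C0 = 0 := by
    rw [hC1e, smul_mul_assoc, mul_smul_comm, hyx, smul_neg] at c0y
    have e1 : (2 * m : ℂ) • (x * y) = 0 := by
      have : (m : ℂ) • (x * y) + (m : ℂ) • (x * y) = 0 := by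
        nth_rewrite 1 [c0y]
        rw [neg_add_cancel]
      rw [← this]
      module
    rcases smul_eq_zero.1 e1 with e2 | e2
    · have : (m : ℂ) = 0 := by
        rcases mul_eq_zero.1 e2 with e3 | e3
        · norm_num at e3
        · exact e3
      rw [hC1e, this, zero_smul]
    · exfalso
      rw [e2, mul_zero] at exy2
      have e3 := congrFun (congrFun exy2 0) 0
      rw [Matrix.smul_apply, Matrix.one_apply_eq, Matrix.zero_apply, smul_eq_mul, mul_one] at e3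
      exact (neg_ne_zero.2 (mul_ne_zero ha' hb')) e3.symm
  rw [c0z, add_zero] at hCe
  have hWe : W = ((-(k / (a * b)) : ℚ) : ℂ) • (x * y) := by
    have e1 : W * ((x * y) * (x * y)) = (k : ℂ) • (x * y) := by
      rw [← mul_assoc, ← hC, hCe, smul_mul_assoc, one_mul]
    rw [exy2, mul_smul_comm, mul_one] at e1
    have hab : (-(a * b : ℂ)) ≠ 0 := neg_ne_zero.2 (mul_ne_zero ha' hb')
    have e2 : W = (-(a * b : ℂ))⁻¹ • ((k : ℂ) • (x * y)) := by
      rw [← e1, smul_smul, inv_mul_cancel₀ hab, one_smul]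
    rw [e2, smul_smul]
    congr 1
    push_cast
    field_simp
  refine ⟨q, c, d, -(k / (a * b)), ?_⟩
  unfold qel
  rw [h, h', h'', hWe]
  abel

end Pool.Agent.R693.SU
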